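import Pool.Agent.Q109.ISat.All

set_option autoImplicit false

/-!
# Strongly induced-saturated countable uniform hypergraphs

For every `k ≥ 3` and every finite `k`-uniform hypergraph `H` with at least one edge and at least
one nonedge there is a `k`-uniform hypergraph `G` on the natural numbers which has no induced copy of
`H`, while every locally finite perturbation of `G` has one.

Idea of the proof.  For almost all `H` the hypergraph `G` is a tower: the `k`-sets are treated one
after the other; for the `k`-set `e` countably many new vertices in `m = |V(H)| - k` classes are
added such that (I) `e` and one vertex of each class form a copy of `H` as soon as the status of `e`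
is changed (and nothing else inside), (II) no copy of `H` arises.  Since a locally finite
perturbation changes only finitely many of the sets which meet `e` one can choose the vertices in the
classes such that nothing else is changed.  The structure inside is that of `H` with clones.  For
`k = 3` one needs a distinction of cases, and two hypergraphs (with four and five vertices) are
treated separately by triple systems on the integers.
-/

namespace Pool.Agent.Results.MP_9095a7_co.StronglySaturated

/-- There is an induced copy of the `k`-uniform hypergraph `H` (a set of `k`-subsets of `W`) in `G`:
an injective map `φ` of the vertices such that a `k`-subset of `W` is an edge of `H` if and only if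
its image is an edge of `G`. -/
def IndCopy (k : ℕ) {W V : Type} (H : Set (Finset W)) (G : Set (Finset V)) : Prop :=
  ∃ φ : W ↪ V, ∀ f : Finset W, f.card = k → (f ∈ H ↔ f.map φ ∈ G)

/-- `G` is strongly `H`-induced-saturated: it has no induced copy of `H`, and for every nonempty
family `P` of `k`-subsets such that every vertex lies in only finitely many members of `P` the
hypergraph obtained by perturbing the members of `P` (the symmetric difference) has an induced copy
of `H`. -/
def StrongSat (k : ℕ) {W V : Type} (H : Set (Finset W)) (G : Set (Finset V)) : Prop :=
  ¬ IndCopy k H G ∧ ∀ P : Set (Finset V), P.Nonempty → (∀ e ∈ P, e.card = k) →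
    (∀ v, {e | e ∈ P ∧ v ∈ e}.Finite) → IndCopy k H (symmDiff G P)

/-- For every `k ≥ 3` and every finite `k`-uniform hypergraph `H` with at least one edge and at least
one nonedge there is a strongly `H`-induced-saturated `k`-uniform hypergraph on the natural
numbers. -/
theorem result (k : ℕ) (hk : 3 ≤ k) (W : Type) [Fintype W] (H : Set (Finset W))
    (hH : ∀ e ∈ H, e.card = k) (hedge : H.Nonempty) (hnon : ∃ e : Finset W, e.card = k ∧ e ∉ H) :
    ∃ G : Set (Finset ℕ), (∀ e ∈ G, e.card = k) ∧ StrongSat k H G :=
  Q109.ISat.all k hk W H hH hedge hnon

end Pool.Agent.Results.MP_9095a7_co.StronglySaturated
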